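import Pool.Agent.Helper46.NB.Stmts

set_option autoImplicit false

/-! Project NB, row P3: both endpoints of an edge lose a colour. -/

namespace Pool.Agent.Helper45.NB

open Finset
open scoped Classical
open Pool.Agent.Helper46.NB

section
variable {V : Type} [Fintype V] {N : ℕ} {E : Finset (Sym2 V)} {L : Sym2 V → Finset ℕ}
  {l t D : ℕ} {pick : Sym2 V → Fin N → Option ℕ}

lemma T_card (hR : Reg E L l t D) {v : V} {c : ℕ} {e : Sym2 V} (he : e ∈ E) (hv : v ∈ e)
    (hc : c ∈ L e) : #(T E L v c) = t := by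
  have hm : e ∈ T E L v c := by
    unfold T; exact mem_filter.mpr ⟨he, hv, hc⟩
  rcases hR.col v c with h | h
  · rw [h] at hm; exact absurd hm (notMem_empty _)
  · exact h

/-- adjacent edges with `c` in their list -/
noncomputable def AS (E : Finset (Sym2 V)) (L : Sym2 V → Finset ℕ) (c : ℕ) (e : Sym2 V) : Finset (Sym2 V) :=
  E.filter fun h => c ∈ L h ∧ Adj e h

lemma AS_card (hR : Reg E L l t D) {c : ℕ} {e : Sym2 V} (he : e ∈ E) (hc : c ∈ L e) :
    #(AS E L c e) ≤ 2 * (t - 1) := by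
  induction e using Sym2.ind with
  | _ v x =>
    have h1 := T_card hR he (Sym2.mem_mk_left v x) hc
    have h2 := T_card hR he (Sym2.mem_mk_right v x) hc
    have hm1 : s(v, x) ∈ T E L v c := by
      unfold T; exact mem_filter.mpr ⟨he, Sym2.mem_mk_left v x, hc⟩
    have hm2 : s(v, x) ∈ T E L x c := by
      unfold T; exact mem_filter.mpr ⟨he, Sym2.mem_mk_right v x, hc⟩
    have hsub : AS E L c s(v, x) ⊆ (T E L v c).erase s(v, x) ∪ (T E L x c).erase s(v, x) := by
      intro h hh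
      obtain ⟨hE, hcL, hne, u, hu, hu'⟩ := mem_filter.mp hh
      rcases Sym2.mem_iff.mp hu with rfl | rfl
      · exact mem_union_left _ (mem_erase.mpr ⟨Ne.symm hne, mem_filter.mpr ⟨hE, hu', hcL⟩⟩)
      · exact mem_union_right _ (mem_erase.mpr ⟨Ne.symm hne, mem_filter.mpr ⟨hE, hu', hcL⟩⟩)
    calc #(AS E L c s(v, x)) ≤ _ := card_le_card hsub
      _ ≤ #((T E L v c).erase s(v, x)) + #((T E L x c).erase s(v, x)) := card_union_le _ _
      _ = 2 * (t - 1) := by rw [card_erase_of_mem hm1, card_erase_of_mem hm2, h1, h2]; ring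

lemma Pr_mono {P Q : (Sym2 V → Fin N) → Prop} (h : ∀ ω, P ω → Q ω) : Pr P ≤ Pr Q := by
  unfold Pr
  apply div_le_div_of_nonneg_right _ (Nat.cast_nonneg _)
  exact_mod_cast card_le_card (fun ω hω => mem_filter.mpr ⟨mem_univ _, h ω (mem_filter.mp hω).2⟩)

lemma Pr_sum_le {ι : Type} (s : Finset ι) (P : ι → (Sym2 V → Fin N) → Prop)
    (Q : (Sym2 V → Fin N) → Prop) (h : ∀ i ∈ s, ∀ ω, P i ω → Q ω)
    (hd : ∀ i ∈ s, ∀ j ∈ s, i ≠ j → ∀ ω, P i ω → ¬ P j ω) : ∑ i ∈ s, Pr (P i) ≤ Pr Q := by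
  unfold Pr
  rw [← Finset.sum_div]
  apply div_le_div_of_nonneg_right _ (Nat.cast_nonneg _)
  rw [← Nat.cast_sum, Nat.cast_le, ← card_biUnion]
  · exact card_le_card fun ω hω => by
      obtain ⟨i, hi, hi'⟩ := mem_biUnion.mp hω
      exact mem_filter.mpr ⟨mem_univ _, h i hi ω (mem_filter.mp hi').2⟩
  · intro i hi j hj hij
    rw [Function.onFun, Finset.disjoint_left]
    intro ω h1 h2
    exact hd i hi j hj hij ω (mem_filter.mp h1).2 (mem_filter.mp h2).2

lemma card_ne (hP : IsPick E L N pick) {e : Sym2 V} (he : e ∈ E) {c : ℕ} (hc : c ∈ L e) :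
    #(univ.filter fun a => pick e a ≠ some c) = N - 1 := by
  have h1 := (hP e he).1 c hc
  have h2 := Finset.card_filter_add_card_filter_not (s := (univ : Finset (Fin N)))
    (fun a => pick e a = some c)
  rw [h1, Finset.card_univ, Fintype.card_fin] at h2
  have h3 : #(univ.filter fun a => pick e a ≠ some c) =
      #(univ.filter fun a => ¬ pick e a = some c) := rfl
  omega

lemma not_pk (hP : IsPick E L N pick) {e : Sym2 V} (he : e ∈ E) {c : ℕ} (hc : c ∉ L e)
    (ω : Sym2 V → Fin N) : ¬ Pk pick ω e c := fun h => hc ((hP e he).2 _ _ h)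

/-- two non adjacent edges retain `c` with probability at least `th²` -/
lemma two_ret (hprod : ST_PROD) (hN : 2 ≤ N) (hR : Reg E L l t D) (hP : IsPick E L N pick)
    {e g : Sym2 V} (he : e ∈ E) (hg : g ∈ E) {c : ℕ} (hce : c ∈ L e) (hcg : c ∈ L g)
    (hne : e ≠ g) (hna : ¬ Adj e g) (ht : 1 ≤ t) :
    th N t ^ 2 ≤ Pr (fun ω => Ret E pick ω e c ∧ Ret E pick ω g c) := by
  set H : Finset (Sym2 V) := AS E L c e ∪ AS E L c g with hH
  have heH : e ∉ H := by
    intro h
    rcases mem_union.mp h with h | h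
    · exact (mem_filter.mp h).2.2.1 rfl
    · exact hna ⟨hne, by obtain ⟨-, -, -, u, hu, hu'⟩ := mem_filter.mp h; exact ⟨u, hu', hu⟩⟩
  have hgH : g ∉ H := by
    intro h
    rcases mem_union.mp h with h | h
    · exact hna (mem_filter.mp h).2.2
    · exact (mem_filter.mp h).2.2.1 rfl
  have hcH : #H ≤ 4 * (t - 1) := by
    calc #H ≤ #(AS E L c e) + #(AS E L c g) := card_union_le _ _
      _ ≤ 2 * (t - 1) + 2 * (t - 1) := Nat.add_le_add (AS_card hR he hce) (AS_card hR hg hcg)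
      _ = 4 * (t - 1) := by ring
  let A : Sym2 V → Finset (Fin N) := fun h =>
    if h = e ∨ h = g then univ.filter fun a => pick h a = some c
    else univ.filter fun a => pick h a ≠ some c
  have hbox := hprod V N (by omega) (insert e (insert g H)) A
  have hN0 : (0 : ℝ) < N := by exact_mod_cast (by omega : 0 < N)
  have hval : ∏ h ∈ insert e (insert g H), ((#(A h) : ℝ) / (N : ℝ)) =
      (1 / (N : ℝ)) * ((1 / (N : ℝ)) * (1 - 1 / (N : ℝ)) ^ #H) := by
    rw [prod_insert (by rw [mem_insert]; push Not; exact ⟨hne, heH⟩), prod_insert hgH]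
    have h1 : A e = univ.filter fun a => pick e a = some c := if_pos (Or.inl rfl)
    have h2 : A g = univ.filter fun a => pick g a = some c := if_pos (Or.inr rfl)
    rw [h1, h2, (hP e he).1 c hce, (hP g hg).1 c hcg, Nat.cast_one]
    congr 2
    rw [← Finset.prod_const]
    apply Finset.prod_congr rfl
    intro h hh
    have h3 : A h = univ.filter fun a => pick h a ≠ some c := if_neg (by
      rintro (rfl | rfl)
      · exact heH hh
      · exact hgH hh)
    have h4 : h ∈ E ∧ c ∈ L h := by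
      rcases mem_union.mp hh with h5 | h5
      · exact ⟨(mem_filter.mp h5).1, (mem_filter.mp h5).2.1⟩
      · exact ⟨(mem_filter.mp h5).1, (mem_filter.mp h5).2.1⟩
    rw [h3, card_ne hP h4.1 h4.2, Nat.cast_sub (by omega), Nat.cast_one]
    field_simp
  have hle : th N t ^ 2 ≤ (1 / (N : ℝ)) * ((1 / (N : ℝ)) * (1 - 1 / (N : ℝ)) ^ #H) := by
    have hx0 : (0 : ℝ) ≤ 1 - 1 / (N : ℝ) := by
      rw [sub_nonneg, div_le_one hN0]; exact_mod_cast (by omega : 1 ≤ N)
    have hx1 : 1 - 1 / (N : ℝ) ≤ 1 := by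
      have : (0 : ℝ) ≤ 1 / (N : ℝ) := by positivity
      linarith
    have h5 : (1 - 1 / (N : ℝ)) ^ (4 * (t - 1)) ≤ (1 - 1 / (N : ℝ)) ^ #H :=
      pow_le_pow_of_le_one hx0 hx1 hcH
    have h6 : th N t ^ 2 = (1 / (N : ℝ)) * ((1 / (N : ℝ)) * (1 - 1 / (N : ℝ)) ^ (4 * (t - 1))) := by
      have : 4 * (t - 1) = (2 * t - 2) + (2 * t - 2) := by omega
      rw [this, pow_add, th]; ring
    rw [h6]
    gcongr
  calc th N t ^ 2 ≤ _ := hle
    _ = _ := hval.symm
    _ = _ := hbox.symm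
    _ ≤ _ := Pr_mono ?_
  intro ω hω
  have hpe : Pk pick ω e c := by
    have := hω e (mem_insert_self _ _)
    have h1 : A e = univ.filter fun a => pick e a = some c := if_pos (Or.inl rfl)
    rw [h1] at this
    exact (mem_filter.mp this).2
  have hpg : Pk pick ω g c := by
    have := hω g (mem_insert_of_mem (mem_insert_self _ _))
    have h1 : A g = univ.filter fun a => pick g a = some c := if_pos (Or.inr rfl)
    rw [h1] at this
    exact (mem_filter.mp this).2
  have hno : ∀ h ∈ H, ¬ Pk pick ω h c := by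
    intro h hh
    have h3 : A h = univ.filter fun a => pick h a ≠ some c := if_neg (by
      rintro (rfl | rfl)
      · exact heH hh
      · exact hgH hh)
    have := hω h (mem_insert_of_mem (mem_insert_of_mem hh))
    rw [h3] at this
    exact (mem_filter.mp this).2
  refine ⟨⟨he, hpe, fun h hE ha => ?_⟩, ⟨hg, hpg, fun h hE ha => ?_⟩⟩
  · by_cases hcl : c ∈ L h
    · exact hno h (mem_union_left _ (mem_filter.mpr ⟨hE, hcl, ha⟩))
    · exact not_pk hP hE hcl ω
  · by_cases hcl : c ∈ L h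
    · exact hno h (mem_union_right _ (mem_filter.mpr ⟨hE, hcl, ha⟩))
    · exact not_pk hP hE hcl ω

end

theorem st_P3 (hprod : ST_PROD) : ST_P3 := by
  intro V _ N hN E L l t D pick hR hP f hf c hc v hv w hw hvw
  have hfv : f = s(v, w) := by
    obtain ⟨x, rfl⟩ := Sym2.mem_iff_exists.mp hv
    rcases Sym2.mem_iff.mp hw with h | h
    · exact absurd h.symm hvw
    · rw [h]
  have hTv := T_card hR hf hv hc
  have hTw := T_card hR hf hw hc
  have hmv : f ∈ T E L v c := by unfold T; exact mem_filter.mpr ⟨hf, hv, hc⟩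
  have hmw : f ∈ T E L w c := by unfold T; exact mem_filter.mpr ⟨hf, hw, hc⟩
  have ht : 1 ≤ t := by rw [← hTv]; exact card_pos.mpr ⟨f, hmv⟩
  -- good pairs
  set Q : Finset (Sym2 V × Sym2 V) :=
    ((T E L v c).erase f ×ˢ (T E L w c).erase f).filter fun q => ¬ Adj q.1 q.2 with hQ
  have hQm : ∀ q ∈ Q, (q.1 ∈ E ∧ v ∈ q.1 ∧ c ∈ L q.1 ∧ q.1 ≠ f) ∧
      (q.2 ∈ E ∧ w ∈ q.2 ∧ c ∈ L q.2 ∧ q.2 ≠ f) ∧ ¬ Adj q.1 q.2 := by
    intro q hq
    obtain ⟨h1, h2⟩ := mem_filter.mp hq
    obtain ⟨h3, h4⟩ := mem_product.mp h1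
    obtain ⟨h5, h6⟩ := mem_erase.mp h3
    obtain ⟨h7, h8⟩ := mem_erase.mp h4
    obtain ⟨a1, a2, a3⟩ := mem_filter.mp h6
    obtain ⟨b1, b2, b3⟩ := mem_filter.mp h8
    exact ⟨⟨a1, a2, a3, h5⟩, ⟨b1, b2, b3, h7⟩, h2⟩
  have hvg : ∀ g : Sym2 V, w ∈ g → g ≠ f → v ∉ g := by
    intro g hwg hgf hvg
    apply hgf
    obtain ⟨x, rfl⟩ := Sym2.mem_iff_exists.mp hwg
    rcases Sym2.mem_iff.mp hvg with h | h
    · exact absurd h hvw
    · rw [← h, hfv, Sym2.eq_swap]
  have hwe : ∀ e : Sym2 V, v ∈ e → e ≠ f → w ∉ e := by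
    intro e hve hef hwe
    apply hef
    obtain ⟨x, rfl⟩ := Sym2.mem_iff_exists.mp hve
    rcases Sym2.mem_iff.mp hwe with h | h
    · exact absurd h.symm hvw
    · rw [← h, hfv]
  have hcard : (t - 1) * (t - 1) ≤ #Q + (t - 1) := by
    have h1 : #((T E L v c).erase f ×ˢ (T E L w c).erase f) = (t - 1) * (t - 1) := by
      rw [card_product, card_erase_of_mem hmv, card_erase_of_mem hmw, hTv, hTw]
    have h2 := Finset.card_filter_add_card_filter_not
      (s := (T E L v c).erase f ×ˢ (T E L w c).erase f) (fun q => ¬ Adj q.1 q.2)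
    have h3 : #(((T E L v c).erase f ×ˢ (T E L w c).erase f).filter
        fun q => ¬ ¬ Adj q.1 q.2) ≤ t - 1 := by
      have h4 : #((T E L v c).erase f) = t - 1 := by rw [card_erase_of_mem hmv, hTv]
      rw [← h4]
      apply card_le_card_of_injOn Prod.fst
      · intro q hq
        exact (mem_product.mp (mem_filter.mp hq).1).1
      · intro q hq r hr hqr
        have hq' := (mem_filter.mp (mem_coe.mp hq))
        have hr' := (mem_filter.mp (mem_coe.mp hr))
        have aq := not_not.mp hq'.2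
        have ar := not_not.mp hr'.2
        obtain ⟨hq1, hq2⟩ := mem_product.mp hq'.1
        obtain ⟨hr1, hr2⟩ := mem_product.mp hr'.1
        obtain ⟨q1f, q1⟩ := mem_erase.mp hq1
        obtain ⟨q2f, q2⟩ := mem_erase.mp hq2
        obtain ⟨r2f, r2⟩ := mem_erase.mp hr2
        obtain ⟨-, qv, -⟩ := mem_filter.mp q1
        obtain ⟨-, qw, -⟩ := mem_filter.mp q2
        obtain ⟨-, rw', -⟩ := mem_filter.mp r2
        apply Prod.ext hqr
        obtain ⟨-, u, hu, hu'⟩ := aq
        obtain ⟨-, u2, hu2, hu2'⟩ := ar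
        rw [← hqr] at hu2
        obtain ⟨x, hx⟩ := Sym2.mem_iff_exists.mp qv
        have nv1 := hvg _ qw q2f
        have nv2 := hvg _ rw' r2f
        have nw := hwe _ qv q1f
        have e1 : u = x := by
          rw [hx] at hu
          rcases Sym2.mem_iff.mp hu with h | h
          · rw [h] at hu'; exact absurd hu' nv1
          · exact h
        have e2 : u2 = x := by
          rw [hx] at hu2
          rcases Sym2.mem_iff.mp hu2 with h | h
          · rw [h] at hu2'; exact absurd hu2' nv2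
          · exact h
        rw [e1] at hu'
        rw [e2] at hu2'
        have hxw : x ≠ w := by
          rintro rfl
          rw [hx] at nw
          exact nw (Sym2.mem_mk_right _ _)
        obtain ⟨y, hy⟩ := Sym2.mem_iff_exists.mp qw
        obtain ⟨z, hz⟩ := Sym2.mem_iff_exists.mp rw'
        rw [hy] at hu'
        rw [hz] at hu2'
        rcases Sym2.mem_iff.mp hu' with h | h
        · exact absurd h hxw
        · rcases Sym2.mem_iff.mp hu2' with h' | h'
          · exact absurd h' hxw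
          · rw [hy, hz, ← h, ← h']
    have h5 : #Q = #(((T E L v c).erase f ×ˢ (T E L w c).erase f).filter
        fun q => ¬ Adj q.1 q.2) := rfl
    omega
  have hsum : ∑ q ∈ Q, Pr (fun ω => Ret E pick ω q.1 c ∧ Ret E pick ω q.2 c) ≤
      Pr (fun ω => Lost E pick ω v c ∧ Lost E pick ω w c) := by
    apply Pr_sum_le
    · intro q hq ω hω
      have := hQm q hq
      exact ⟨⟨q.1, this.1.2.1, hω.1⟩, ⟨q.2, this.2.1.2.1, hω.2⟩⟩
    · intro q hq r hr hqr ω hω hω'
      have h1 := hQm q hq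
      have h2 := hQm r hr
      apply hqr
      apply Prod.ext
      · by_contra hne
        exact hω.1.2.2 r.1 h2.1.1 ⟨hne, v, h1.1.2.1, h2.1.2.1⟩ hω'.1.2.1
      · by_contra hne
        exact hω.2.2.2 r.2 h2.2.1.1 ⟨hne, w, h1.2.1.2.1, h2.2.1.2.1⟩ hω'.2.2.1
  have hlow : (#Q : ℝ) * th N t ^ 2 ≤
      ∑ q ∈ Q, Pr (fun ω => Ret E pick ω q.1 c ∧ Ret E pick ω q.2 c) := by
    rw [← nsmul_eq_mul]
    apply Finset.card_nsmul_le_sum
    intro q hq
    have h := hQm q hq
    refine two_ret hprod hN hR hP h.1.1 h.2.1.1 h.1.2.2.1 h.2.1.2.2.1 ?_ h.2.2 ht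
    intro heq
    exact hvg _ h.2.1.2.1 h.2.1.2.2.2 (heq ▸ h.1.2.1)
  have hreal : ((t : ℝ) - 1) * ((t : ℝ) - 2) ≤ (#Q : ℝ) := by
    have h1 : (((t - 1 : ℕ) : ℝ)) * ((t - 1 : ℕ) : ℝ) ≤ (#Q : ℝ) + ((t - 1 : ℕ) : ℝ) := by
      exact_mod_cast hcard
    rw [Nat.cast_sub ht, Nat.cast_one] at h1
    linarith
  calc ((t : ℝ) - 1) * ((t : ℝ) - 2) * th N t ^ 2 ≤ (#Q : ℝ) * th N t ^ 2 :=
        mul_le_mul_of_nonneg_right hreal (sq_nonneg _)
    _ ≤ _ := hlow
    _ ≤ _ := hsum

end Pool.Agent.Helper45.NB
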